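import Pool.Agent.H58.EU.Sys1

/-!
# Sys, part 2: quantifier-free formulas and prenex `E₁` formulas as systems of instructions
-/

set_option autoImplicit false

namespace Pool.Agent.H63.EU

open Pool.Agent.H98.EU Pool.Agent.H58.EU

theorem econgr {M : Type} [CommSemiring M] (t : Tm) (v w : ℕ → M) (h : ∀ i ∈ t.vars, v i = w i) :
    t.eval v = t.eval w := by
  induction t with
  | var i => exact h i (by simp [Tm.vars])
  | zero => rfl
  | one => rfl
  | add s t hs ht =>
    simp only [Tm.eval]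
    rw [hs fun i hi => h i (by simp [Tm.vars, hi]), ht fun i hi => h i (by simp [Tm.vars, hi])]
  | mul s t hs ht =>
    simp only [Tm.eval]
    rw [hs fun i hi => h i (by simp [Tm.vars, hi]), ht fun i hi => h i (by simp [Tm.vars, hi])]

/-- append a gate -/
theorem ag {N N' : ℕ} {S : List Ins} (hN : 3 ≤ N) (hNN : N ≤ N') (hB : Below N' S)
    (hC : Cpl N N' S (fun _ _ _ _ => True)) (o j k l : ℕ) (ho : o ≤ 2) (hj : j < N') (hk : k < N') (hl : l < N') :
    Below (N' + 1) (S ++ [⟨o, j, k, l, N'⟩]) ∧ Cpl N (N' + 1) (S ++ [⟨o, j, k, l, N'⟩]) (fun _ _ _ _ => True) := by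
  refine ⟨Below_append.2 ⟨Below_mono hB (Nat.le_succ _), ?_⟩, ?_⟩
  · intro c hc
    rw [List.mem_singleton] at hc
    subst hc
    exact ⟨hj.trans (Nat.lt_succ_self _), hk.trans (Nat.lt_succ_self _), hl.trans (Nat.lt_succ_self _),
      Nat.lt_succ_self _⟩
  · exact chain hN hNN (Nat.le_succ _) hB hC (gate N' o j k l ho (hN.trans hNN) hj hk hl)
      (fun _ _ _ _ _ _ _ _ _ _ _ => trivial)

theorem sat_last {M : Type} [CommSemiring M] [LinearOrder M] {S : List Ins} {c : Ins} {w : ℕ → M}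
    (h : Sat (S ++ [c]) w) : Sat S w ∧ Rl (c.o : M) (w c.j) (w c.k) (w c.l) (w c.m) := by
  rw [Sat_append] at h
  exact ⟨h.1, h.2 c (List.mem_singleton.2 rfl)⟩

/-- the value of a formula at a place -/
def Val (S : List Ins) (r : ℕ) (A : Fm) (ρ : ℕ → ℕ) : Prop :=
  ∀ (M : Type) [CommSemiring M] [LinearOrder M], PAminus M → ∀ w : ℕ → M, w 1 = 1 → w 2 = 0 → Sat S w →
    (w r = 1 ∧ A.Holds (fun i => w (ρ i))) ∨ (w r = 0 ∧ ¬ A.Holds (fun i => w (ρ i)))

/-- two terms, one after another -/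
theorem two {N : ℕ} {ρ : ℕ → ℕ} (hN : 3 ≤ N) (s t : Tm) (hs : ∀ i ∈ s.vars, ρ i < N) (ht : ∀ i ∈ t.vars, ρ i < N) :
    ∃ (S : List Ins) (N' r r' : ℕ), N ≤ N' ∧ r < N' ∧ r' < N' ∧ Below N' S ∧
    (∀ (M : Type) [CommSemiring M] [LinearOrder M], PAminus M → ∀ w : ℕ → M, w 1 = 1 → w 2 = 0 → Sat S w →
      w r = s.eval (fun i => w (ρ i)) ∧ w r' = t.eval (fun i => w (ρ i))) ∧
    Cpl N N' S (fun _ _ _ _ => True) := by
  obtain ⟨S1, N1, r1, hN1, hr1, hB1, hv1, hC1⟩ := tsys s N ρ hN hs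
  obtain ⟨S2, N2, r2, hN2, hr2, hB2, hv2, hC2⟩ := tsys t N1 ρ (hN.trans hN1) fun i hi => (ht i hi).trans_le hN1
  refine ⟨S1 ++ S2, N2, r1, r2, hN1.trans hN2, hr1.trans_le hN2, hr2, Below_append.2 ⟨Below_mono hB1 hN2, hB2⟩, ?_,
    chain hN hN1 hN2 hB1 hC1 hC2 (fun _ _ _ _ _ _ _ _ _ _ _ => trivial)⟩
  intro M _ _ P w h1 h2 hS
  rw [Sat_append] at hS
  exact ⟨hv1 M P w h1 h2 hS.1, hv2 M P w h1 h2 hS.2⟩

theorem fsys (A : Fm) (hA : A.Open) : ∀ (N : ℕ) (ρ : ℕ → ℕ), 3 ≤ N → (∀ i ∈ A.vars, ρ i < N) →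
    ∃ (S : List Ins) (N' r : ℕ), N ≤ N' ∧ r < N' ∧ Below N' S ∧
    (∀ (M : Type) [CommSemiring M] [LinearOrder M], PAminus M → ∀ w : ℕ → M, w 1 = 1 → w 2 = 0 → Sat S w →
      (w r = 1 ∧ A.Holds (fun i => w (ρ i))) ∨ (w r = 0 ∧ ¬ A.Holds (fun i => w (ρ i)))) ∧
    Cpl N N' S (fun _ _ _ _ => True) := by
  induction A with
  | eq s t =>
    intro N ρ hN hρ
    obtain ⟨S, N', r, r', h1, h2, h3, h4, h5, h6⟩ := two hN s t (fun i hi => hρ i (by simp [Fm.vars, hi]))
      (fun i hi => hρ i (by simp [Fm.vars, hi]))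
    obtain ⟨h7, h8⟩ := ag hN h1 h4 h6 1 r r' 1 (by norm_num) h2 h3 (by omega)
    refine ⟨_, N' + 1, N', h1.trans (Nat.le_succ _), Nat.lt_succ_self _, h7, ?_, h8⟩
    intro M _ _ P w e1 e2 hS
    obtain ⟨hS1, hS2⟩ := sat_last hS
    obtain ⟨g1, g2⟩ := h5 M P w e1 e2 hS1
    have h9 := (Rl1 P).1 hS2
    simp only [Fm.Holds]
    rw [← g1, ← g2]
    exact h9
  | lt s t =>
    intro N ρ hN hρ
    obtain ⟨S, N', r, r', h1, h2, h3, h4, h5, h6⟩ := two hN s t (fun i hi => hρ i (by simp [Fm.vars, hi]))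
      (fun i hi => hρ i (by simp [Fm.vars, hi]))
    obtain ⟨h7, h8⟩ := ag hN h1 h4 h6 2 r r' 1 (by norm_num) h2 h3 (by omega)
    refine ⟨_, N' + 1, N', h1.trans (Nat.le_succ _), Nat.lt_succ_self _, h7, ?_, h8⟩
    intro M _ _ P w e1 e2 hS
    obtain ⟨hS1, hS2⟩ := sat_last hS
    obtain ⟨g1, g2⟩ := h5 M P w e1 e2 hS1
    have h9 := (Rl2 P).1 hS2
    simp only [Fm.Holds]
    rw [← g1, ← g2]
    exact h9
  | neg A ih =>
    intro N ρ hN hρ
    obtain ⟨S, N', r, h1, h2, h4, h5, h6⟩ := ih hA N ρ hN hρ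
    obtain ⟨h7, h8⟩ := ag hN h1 h4 h6 2 r 1 1 (by norm_num) h2 (by omega) (by omega)
    refine ⟨_, N' + 1, N', h1.trans (Nat.le_succ _), Nat.lt_succ_self _, h7, ?_, h8⟩
    intro M _ _ P w e1 e2 hS
    obtain ⟨hS1, hS2⟩ := sat_last hS
    have g := h5 M P w e1 e2 hS1
    have h9 := (Rl2 P).1 hS2
    simp only [Fm.Holds, not_not]
    simp only [e1] at h9
    rcases g with ⟨g1, g2⟩ | ⟨g1, g2⟩
    · rcases h9 with ⟨_, h9⟩ | ⟨h9, _⟩
      · rw [g1] at h9
        exact absurd h9 (lt_irrefl _)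
      · exact Or.inr ⟨h9, g2⟩
    · rcases h9 with ⟨h9, _⟩ | ⟨_, h9⟩
      · exact Or.inl ⟨h9, g2⟩
      · rw [g1] at h9
        exact absurd P.zero_lt_one h9
  | and A B hA' hB' =>
    intro N ρ hN hρ
    obtain ⟨S1, N1, r1, a1, a2, a3, a4, a5⟩ := hA' hA.1 N ρ hN (fun i hi => hρ i (by simp [Fm.vars, hi]))
    obtain ⟨S2, N2, r2, b1, b2, b3, b4, b5⟩ := hB' hA.2 N1 ρ (hN.trans a1)
      (fun i hi => (hρ i (by simp [Fm.vars, hi])).trans_le a1)
    have c1 : Below N2 (S1 ++ S2) := Below_append.2 ⟨Below_mono a3 b1, b3⟩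
    have c2 : Cpl N N2 (S1 ++ S2) (fun _ _ _ _ => True) :=
      chain hN a1 b1 a3 a5 b5 (fun _ _ _ _ _ _ _ _ _ _ _ => trivial)
    obtain ⟨h7, h8⟩ := ag hN (a1.trans b1) c1 c2 0 r1 r2 2 (by norm_num) (by omega) b2 (by omega)
    refine ⟨_, N2 + 1, N2, (a1.trans b1).trans (Nat.le_succ _), Nat.lt_succ_self _, h7, ?_, h8⟩
    intro M _ _ P w e1 e2 hS
    obtain ⟨hS1, hS2⟩ := sat_last hS
    rw [Sat_append] at hS1
    have g := a4 M P w e1 e2 hS1.1
    have g' := b4 M P w e1 e2 hS1.2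
    have h9 := (Rl0 P).1 hS2
    simp only [e2] at h9
    simp only [Fm.Holds]
    rcases g with ⟨g1, g2⟩ | ⟨g1, g2⟩
    · rcases g' with ⟨g3, g4⟩ | ⟨g3, g4⟩
      · left
        rw [← h9, g1, g3]
        exact ⟨by simp, g2, g4⟩
      · right
        rw [← h9, g1, g3]
        exact ⟨by simp, fun h => g4 h.2⟩
    · right
      rw [← h9, g1]
      exact ⟨by simp, fun h => g2 h.1⟩
  | or A B hA' hB' =>
    intro N ρ hN hρ
    obtain ⟨S1, N1, r1, a1, a2, a3, a4, a5⟩ := hA' hA.1 N ρ hN (fun i hi => hρ i (by simp [Fm.vars, hi]))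
    obtain ⟨S2, N2, r2, b1, b2, b3, b4, b5⟩ := hB' hA.2 N1 ρ (hN.trans a1)
      (fun i hi => (hρ i (by simp [Fm.vars, hi])).trans_le a1)
    have c1 : Below N2 (S1 ++ S2) := Below_append.2 ⟨Below_mono a3 b1, b3⟩
    have c2 : Cpl N N2 (S1 ++ S2) (fun _ _ _ _ => True) :=
      chain hN a1 b1 a3 a5 b5 (fun _ _ _ _ _ _ _ _ _ _ _ => trivial)
    obtain ⟨h7, h8⟩ := ag hN (a1.trans b1) c1 c2 0 1 r1 r2 (by norm_num) (by omega) (by omega) b2
    obtain ⟨h7', h8'⟩ := ag hN ((a1.trans b1).trans (Nat.le_succ _)) h7 h8 2 2 N2 1 (by norm_num) (by omega)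
      (Nat.lt_succ_self _) (by omega)
    refine ⟨_, N2 + 1 + 1, N2 + 1, ((a1.trans b1).trans (Nat.le_succ _)).trans (Nat.le_succ _),
      Nat.lt_succ_self _, h7', ?_, h8'⟩
    intro M _ _ P w e1 e2 hS
    obtain ⟨hS', hS3⟩ := sat_last hS
    obtain ⟨hS1, hS2⟩ := sat_last hS'
    rw [Sat_append] at hS1
    have g := a4 M P w e1 e2 hS1.1
    have g' := b4 M P w e1 e2 hS1.2
    have h9 := (Rl0 P).1 hS2
    have h10 := (Rl2 P).1 hS3
    simp only [e1, one_mul] at h9
    simp only [e2] at h10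
    simp only [Fm.Holds]
    have hpos : ∀ x : M, 0 < 1 + x := fun x => lt_of_lt_of_le P.zero_lt_one (P.le_add 1 x)
    have hA1 : A.Holds (fun i => w (ρ i)) ∨ B.Holds (fun i => w (ρ i)) → (0 : M) < w N2 := by
      rcases g with ⟨g1, g2⟩ | ⟨g1, g2⟩
      · intro _
        rw [← h9, g1]
        exact hpos _
      · rcases g' with ⟨g3, g4⟩ | ⟨g3, g4⟩
        · intro _
          rw [← h9, g1, g3, zero_add]
          exact P.zero_lt_one
        · intro h
          exact (h.elim g2 g4).elim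
    have hA2 : ¬ (A.Holds (fun i => w (ρ i)) ∨ B.Holds (fun i => w (ρ i))) → ¬ (0 : M) < w N2 := by
      intro hn
      rcases g with ⟨g1, g2⟩ | ⟨g1, g2⟩
      · exact absurd (Or.inl g2) hn
      · rcases g' with ⟨g3, g4⟩ | ⟨g3, g4⟩
        · exact absurd (Or.inr g4) hn
        · rw [← h9, g1, g3, zero_add]
          exact lt_irrefl _
    rcases h10 with ⟨h10, h11⟩ | ⟨h10, h11⟩
    · left
      refine ⟨h10, ?_⟩
      by_contra hn
      exact hA2 hn h11
    · right
      exact ⟨h10, fun h => h11 (hA1 h)⟩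
  | ex i t A ih => exact hA.elim

theorem esys {A : Fm} (hA : PrenexE1 A) : ∀ (N : ℕ) (ρ : ℕ → ℕ), 3 ≤ N → (∀ i ∈ A.vars, ρ i < N) →
    ∃ (S : List Ins) (N' : ℕ), N ≤ N' ∧ Below N' S ∧
    (∀ (M : Type) [CommSemiring M] [LinearOrder M], PAminus M → ∀ w : ℕ → M, w 1 = 1 → w 2 = 0 → Sat S w →
      A.Holds (fun i => w (ρ i))) ∧
    Cpl N N' S (fun _ _ _ w => A.Holds (fun i => w (ρ i))) := by
  induction hA with
  | opn A h =>
    intro N ρ hN hρ
    obtain ⟨S, N', r, h1, h2, h4, h5, E, h6⟩ := fsys A h N ρ hN hρ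
    refine ⟨S ++ [⟨3, 1, r, 1, 1⟩], N', h1, Below_append.2 ⟨h4, ?_⟩, ?_, E, ?_⟩
    · intro c hc
      rw [List.mem_singleton] at hc
      subst hc
      exact ⟨by show 1 < N'; omega, h2, by show 1 < N'; omega, by show 1 < N'; omega⟩
    · intro M _ _ P w e1 e2 hS
      obtain ⟨hS1, hS2⟩ := sat_last hS
      have h9 := (Rl3 P).1 hS2
      simp only [e1] at h9
      rcases h5 M P w e1 e2 hS1 with ⟨_, g⟩ | ⟨g, _⟩
      · exact g
      · rw [g] at h9
        exact absurd P.zero_lt_one (not_lt.2 h9)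
    · intro M _ _ P w W e1 e2 hW hpre
      obtain ⟨w', k1, k2, k3⟩ := h6 M P w W e1 e2 hW trivial
      refine ⟨w', k1, k2, Sat_append.2 ⟨k3, ?_⟩⟩
      have e1' : w' 1 = 1 := by rw [k1 1 (by omega), e1]
      have e2' : w' 2 = 0 := by rw [k1 2 (by omega), e2]
      intro c hc
      rw [List.mem_singleton] at hc
      subst hc
      refine (Rl3 P).2 ?_
      show w' 1 ≤ w' r
      rw [e1']
      rcases h5 M P w' e1' e2' k3 with ⟨g, _⟩ | ⟨_, g⟩
      · rw [g]
      · refine absurd ?_ g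
        exact (Fm.holds_congr A _ _ fun i hi => k1 _ (hρ i hi)).2 hpre
  | ex i t A hi _ ih =>
    intro N ρ hN hρ
    obtain ⟨S1, N1, r, hN1, hr, hB1, hv1, hC1⟩ := tsys t N ρ hN fun j hj => hρ j (by simp [Fm.vars, hj])
    have hρ' : ∀ j ∈ A.vars, Function.update ρ i N1 j < N1 + 1 := by
      intro j hj
      by_cases hji : j = i
      · subst hji
        rw [Function.update_self]
        exact Nat.lt_succ_self _
      · rw [Function.update_of_ne hji]
        have := hρ j (by simp [Fm.vars, hj])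
        omega
    obtain ⟨S2, N2, hN2, hB2, hv2, E, hC2⟩ := ih (N1 + 1) (Function.update ρ i N1) (by omega) hρ'
    have hupd : ∀ (M : Type) (w : ℕ → M), (fun j => w (Function.update ρ i N1 j)) =
        Function.update (fun j => w (ρ j)) i (w N1) := by
      intro M w
      funext j
      by_cases hji : j = i
      · subst hji
        rw [Function.update_self, Function.update_self]
      · rw [Function.update_of_ne hji, Function.update_of_ne hji]
    have hBi : Below N2 [⟨3, N1, r, 1, 1⟩] := by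
      intro c hc
      rw [List.mem_singleton] at hc
      subst hc
      exact ⟨by show N1 < N2; omega, by show r < N2; omega, by show 1 < N2; omega, by show 1 < N2; omega⟩
    refine ⟨S1 ++ ([⟨3, N1, r, 1, 1⟩] ++ S2), N2, by omega,
      Below_append.2 ⟨Below_mono hB1 (by omega), Below_append.2 ⟨hBi, hB2⟩⟩, ?_, ?_⟩
    · intro M _ _ P w e1 e2 hS
      rw [Sat_append, Sat_append] at hS
      have h9 := (Rl3 P).1 (hS.2.1 _ (List.mem_singleton.2 rfl))
      have h9' : w N1 ≤ w r := h9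
      rw [hv1 M P w e1 e2 hS.1] at h9'
      refine ⟨w N1, h9', ?_⟩
      have h10 := hv2 M P w e1 e2 hS.2.2
      rw [hupd] at h10
      exact h10
    · refine chain (pre2 := fun M _ _ w => ∃ a : M, a ≤ w r ∧ A.Holds (Function.update (fun j => w (ρ j)) i a))
        hN hN1 (by omega) hB1 ?_ ?_ ?_
      · obtain ⟨E1, hE1⟩ := hC1
        exact ⟨E1, fun M _ _ P w W e1 e2 hW _ => hE1 M P w W e1 e2 hW trivial⟩
      · refine ⟨E, ?_⟩
        intro M _ _ P w W e1 e2 hW hpre
        obtain ⟨a, ha, hAa⟩ := hpre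
        have q1 : ∀ j < N1, Function.update w N1 a j = w j := fun j hj => Function.update_of_ne hj.ne _ _
        obtain ⟨w', k1, k2, k3⟩ := hC2 M P (Function.update w N1 a) W (by rw [q1 1 (by omega), e1])
          (by rw [q1 2 (by omega), e2]) (by
            intro j hj
            rcases Nat.lt_succ_iff_lt_or_eq.1 hj with h | h
            · rw [q1 j h]
              exact hW j h
            · subst h
              rw [Function.update_self]
              exact ha.trans (hW r hr)) (by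
            have h11 := hupd M (Function.update w N1 a)
            show A.Holds (fun j => Function.update w N1 a (Function.update ρ i N1 j))
            rw [h11]
            refine (Fm.holds_congr A _ _ fun j hj => ?_).2 hAa
            by_cases hji : j = i
            · subst hji
              rw [Function.update_self, Function.update_self, Function.update_self]
            · rw [Function.update_of_ne hji, Function.update_of_ne hji]
              refine q1 _ ?_
              have := hρ j (by simp [Fm.vars, hj])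
              omega)
        refine ⟨w', fun j hj => by rw [k1 j (by omega), q1 j hj], k2, Sat_append.2 ⟨?_, k3⟩⟩
        intro c hc
        rw [List.mem_singleton] at hc
        subst hc
        refine (Rl3 P).2 ?_
        show w' N1 ≤ w' r
        rw [k1 N1 (Nat.lt_succ_self _), k1 r (by omega), q1 r hr, Function.update_self]
        exact ha
      · intro M _ _ P w w' e1 e2 hww hpre hS
        obtain ⟨a, ha, hAa⟩ := hpre
        have e1' : w' 1 = 1 := by rw [hww 1 (by omega), e1]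
        have e2' : w' 2 = 0 := by rw [hww 2 (by omega), e2]
        refine ⟨a, ?_, ?_⟩
        · rw [hv1 M P w' e1' e2' hS]
          refine ha.trans (le_of_eq ?_)
          exact econgr t _ _ fun j hj => (hww _ (hρ j (by simp [Fm.vars, hj]))).symm
        · refine (Fm.holds_congr A _ _ fun j hj => ?_).2 hAa
          by_cases hji : j = i
          · subst hji
            rw [Function.update_self, Function.update_self]
          · rw [Function.update_of_ne hji, Function.update_of_ne hji]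
            exact hww _ (hρ j (by simp [Fm.vars, hj]))

end Pool.Agent.H63.EU
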